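import Mathlib
import Pool.Agent.H16.Blocks

namespace Pool.Agent.Results.MP_5c4cbf_co.Linear

open Finset Pool.Agent.H16.Blocks

/-- an intersecting family -/
def Inter {n : ℕ} (F : Finset (Finset (Fin n))) : Prop := ∀ A ∈ F, ∀ B ∈ F, (A ∩ B).Nonempty

/-- a maximal intersecting family -/
def MaxInter {n : ℕ} (F : Finset (Finset (Fin n))) : Prop :=
  Inter F ∧ ∀ A : Finset (Fin n), A ∉ F → ¬ Inter (insert A F)

/-- `F` shatters some matching of size `k` -/
def ShattersSome {n : ℕ} (k : ℕ) (F : Finset (Finset (Fin n))) : Prop :=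
  ∃ M : Finset (Finset (Fin n)), M.card = k ∧ (∀ A ∈ M, A.card = 2) ∧
    (∀ A ∈ M, ∀ B ∈ M, A ≠ B → Disjoint A B) ∧
    ∀ c : Finset (Fin n) → Fin n, (∀ A ∈ M, c A ∈ A) →
      ∃ S ∈ F, S ∩ M.biUnion id = M.image c

/-- `k*(n)` -/
noncomputable def kstar (n : ℕ) : ℕ :=
  sSup {k : ℕ | ∀ F : Finset (Finset (Fin n)), MaxInter F → ShattersSome k F}

theorem mem_of_meets {n : ℕ} (F : Finset (Finset (Fin n))) (hF : MaxInter F) (G : Finset (Fin n))
    (hG : G.Nonempty) (key : ∀ B ∈ F, (G ∩ B).Nonempty) : G ∈ F := by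
  by_contra h
  apply hF.2 G h
  intro A hA B hB
  rcases mem_insert.1 hA with rfl | hA' <;> rcases mem_insert.1 hB with rfl | hB'
  · rwa [inter_self]
  · exact key B hB'
  · rw [inter_comm]; exact key A hA'
  · exact hF.1 A hA' B hB'

theorem upper (n k : ℕ) (hn : 1 ≤ n)
    (h : ∀ F : Finset (Finset (Fin n)), MaxInter F → ShattersSome k F) : 2 * k + 1 ≤ n := by
  obtain ⟨x⟩ : Nonempty (Fin n) := ⟨⟨0, hn⟩⟩
  obtain ⟨M, m1, m2, m3, m4⟩ := h (univ.filter (fun A => x ∈ A)) ⟨fun A hA B hB =>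
    ⟨x, mem_inter.2 ⟨(mem_filter.1 hA).2, (mem_filter.1 hB).2⟩⟩, fun A hA hI => by
      obtain ⟨y, hy⟩ := hI A (mem_insert_self _ _) {x} (by simp)
      simp only [mem_inter, mem_singleton] at hy
      exact hA (by simpa [← hy.2] using hy.1)⟩
  have hc : ∀ A : Finset (Fin n), ∃ y : Fin n, A ∈ M → y ∈ A ∧ y ≠ x := by
    intro A
    by_cases hA : A ∈ M
    · obtain ⟨y, hy, h2⟩ := exists_mem_ne (show 1 < A.card by rw [m2 A hA]; omega) x
      exact ⟨y, fun _ => ⟨hy, h2⟩⟩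
    · exact ⟨x, fun h => absurd h hA⟩
  choose c hc using hc
  obtain ⟨S, hS, e⟩ := m4 c (fun A hA => (hc A hA).1)
  have hx : x ∉ M.biUnion id := by
    intro hx
    have : x ∈ M.image c := e ▸ mem_inter.2 ⟨(mem_filter.1 hS).2, hx⟩
    obtain ⟨A, hA, h2⟩ := mem_image.1 this
    exact (hc A hA).2 h2
  have e4 : (insert x (M.biUnion id)).card ≤ n := (card_le_univ _).trans (by simp)
  rw [card_insert_of_notMem hx, card_bU 2 M m2 m3, m1] at e4
  exact e4

theorem lower (n : ℕ) (hn : 1 ≤ n) (F : Finset (Finset (Fin n))) (hF : MaxInter F) :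
    ShattersSome (n / 3) F := by
  obtain ⟨x⟩ : Nonempty (Fin n) := ⟨⟨0, hn⟩⟩
  obtain ⟨Y, hY, h⟩ : ∃ Y : Finset (Fin n), 2 * (n / 3) ≤ Y.card ∧
      ∀ B ∈ F, B ⊆ Y → n / 3 < B.card := by
    by_cases h : ∃ A ∈ F, A.card ≤ n / 3
    · obtain ⟨A, hA, hc⟩ := h
      refine ⟨Aᶜ, by rw [card_compl, Fintype.card_fin]; omega, fun B hB h => ?_⟩
      obtain ⟨y, hy⟩ := hF.1 A hA B hB
      exact absurd (mem_inter.1 hy).1 (mem_compl.1 (h (mem_inter.1 hy).2))
    · push Not at h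
      exact ⟨univ, by rw [card_univ, Fintype.card_fin]; omega, fun B hB _ => h B hB⟩
  obtain ⟨M, a1, a2, a3, a4⟩ := exists_blocks 2 (by omega) (n / 3) Y hY
  refine ⟨M, a1, a2, a3, fun c hc => ?_⟩
  have u1 := card_bU 2 M a2 a3
  have t1 := card_choice M c hc a3
  have s1 := choice_sub M c hc
  have y1 : M.biUnion id ⊆ Y := biUnion_subset.2 a4
  rw [a1] at u1 t1
  generalize M.biUnion id = U at *
  generalize M.image c = T at *
  have c1 : (U \ T).card = n / 3 := by rw [card_sdiff_of_subset s1]; omega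
  refine ⟨(U \ T)ᶜ, mem_of_meets F hF _ (card_pos.1 ?_) fun B hB => ?_, ?_⟩
  · rw [card_compl, Fintype.card_fin]; omega
  · by_contra hb
    have h1 : B ⊆ U \ T := fun y hy => by
      by_contra h2
      exact hb ⟨y, mem_inter.2 ⟨mem_compl.2 h2, hy⟩⟩
    have := h B hB (h1.trans (sdiff_subset.trans y1))
    have := card_le_card h1
    omega
  · ext y
    simp only [mem_inter, mem_compl, mem_sdiff, not_and, not_not]
    exact ⟨fun h => h.1 h.2, fun h => ⟨fun _ => h, s1 h⟩⟩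

theorem result (n : ℕ) (hn : 1 ≤ n) : n / 3 ≤ kstar n ∧ kstar n ≤ (n - 1) / 2 := by
  have hb : BddAbove {k : ℕ | ∀ F : Finset (Finset (Fin n)), MaxInter F → ShattersSome k F} := by
    refine ⟨n, fun k hk => ?_⟩
    have := upper n k hn hk
    omega
  have := upper n _ hn (Nat.sSup_mem ⟨n / 3, by exact lower n hn⟩ hb)
  exact ⟨le_csSup hb (lower n hn), by unfold kstar; omega⟩

end Pool.Agent.Results.MP_5c4cbf_co.Linear
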